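import Pool.Agent.MP_129fce_an.Construct

open Pool.Agent.MP_129fce_an

/-- For every `0 < α ≤ 1` some countable peak set for `A_α` (so not the whole circle) is not a
zero set for `G_α`. -/
theorem Pool.Agent.Results.MP_129fce_an.PeakNotGevreyZero.result (α : ℝ) (h0 : 0 < α) (h1 : α ≤ 1) :
    ∃ E : Set ℂ, E.Countable ∧ IsPeakSet α E ∧ ¬ IsGevreyZeroSet α E := by
  rcases h1.lt_or_eq with h | rfl
  · obtain ⟨κ, H⟩ := exists_good h0 h
    exact ⟨_, (Set.countable_range _).insert _, H.isPeakSet, not_zeroSet_pt h0 h⟩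
  · exact ⟨_, Set.countable_singleton _, isPeakSet_one, not_zeroSet_one⟩
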